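import Mathlib
import Pool.Agent.Y827.LS.NumL
import Pool.Agent.J4.H49.LW.CoreW

/-! The choice of the parameters of `Pool.Agent.Y827.LS` for a narrow window. -/

set_option autoImplicit false

namespace Pool.Agent.J4.H49.LW

open Finset Filter Topology
open Pool.Agent.H361R2.GM
open Pool.Agent.H362R2.CM
open Pool.Agent.W25.UB
open Pool.Agent.W352.UBNum
open Pool.Agent.Y827.LS

/-- the algebra of the base inequality -/
theorem coreLW (n m θ σ s ω e G κ nb K J T P b b2 d g y : ℝ) (hω : 1 ≤ ω) (hs : 0 < s)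
    (hsω : s * ω ≤ σ) (hm : 0 ≤ m) (hn : 0 < n)
    (hθ : 1 / 2 ≤ θ) (hθ1 : θ ≤ 1) (hσ : 0 < σ) (hσ1 : σ ≤ 1 / 10)
    (hnm : 2 / θ * m * (1 + 3 * σ) < n * (1 - σ)) (he : 0 < e) (he1 : e ≤ s / 500)
    (hκ : 0 ≤ κ) (hnb : 0 ≤ nb)
    (hGκ : 1000000 * (G ^ 2 * κ * nb ^ 2) ≤ s ^ 2 * e ^ 3)
    (hK : 0 < K) (hJ : 0 < J) (hT : 0 < T) (hP : 0 < P)
    (hd0 : 0 ≤ d) (hd : d ≤ e * s ^ 2 / 100000) (hb : 1 - d ≤ b) (hb1 : b ≤ 1)
    (hb2 : 1 - d ≤ b2) (hg : g = e / 4 / (θ / 2)) (hy : y = K * g * (J ^ 2 / T))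
    (hyl : 200000 / (e * s ^ 2) ≤ y) (hyl2 : 100000 * (G ^ 2 * nb ^ 2) / (e ^ 2 * s ^ 2) ≤ y)
    (hyl3 : 1 / σ ≤ y) :
    (1 + (K * g * (J ^ 2 / T) + Real.sqrt (1024 * ω / (e / 4 * (J ^ 2 * (b * (P * T ^ 2)))) *
      (K * (2 * (g * ((1 + e ^ 3) * (J ^ 4 * (P * T))))) + K ^ 2 * g ^ 2 *
        max 0 ((1 + e ^ 3) ^ 2 * (J ^ 6 * P) -
          2 * (J ^ 2 / T) * ((1 - 2 * e ^ 3) * (J ^ 4 * (b2 * (P * T)))) +
          (J ^ 2 / T) ^ 2 * (J ^ 2 * (P * T ^ 2))))) +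
      nb * Real.sqrt (1024 * ω / (e / 4 * (J ^ 2 * (b * (P * T ^ 2)))) *
      (K * (4 * G ^ 2 * (1 / 4 * ((1 + e ^ 3) * (J ^ 4 * (P * T))))) + K ^ 2 * (1 / 4) ^ 2 *
        (16 * G ^ 2 * κ * ((1 + e ^ 3) ^ 2 * (J ^ 6 * P))))))) * (m * (P * T ^ 3)) <
      n * (K * (e / 4 * (J ^ 2 * (b * (P * T ^ 2))))) := by
  have hsσ : s ≤ σ := by nlinarith
  have hs2 : s ^ 2 * ω ≤ σ ^ 2 := by
    have h1 : s * (s * ω) ≤ σ * σ := mul_le_mul hsσ hsω (by positivity) hσ.le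
    calc s ^ 2 * ω = s * (s * ω) := by ring
      _ ≤ σ * σ := h1
      _ = σ ^ 2 := by ring
  have hω0 : 0 < ω := by linarith
  have hsc : ∀ x : ℝ, x ≤ (s * y) ^ 2 → ω * x ≤ (σ * y) ^ 2 := by
    intro x hx
    calc ω * x ≤ ω * (s * y) ^ 2 := mul_le_mul_of_nonneg_left hx hω0.le
      _ = (s ^ 2 * ω) * y ^ 2 := by ring
      _ ≤ σ ^ 2 * y ^ 2 := mul_le_mul_of_nonneg_right hs2 (sq_nonneg _)
      _ = (σ * y) ^ 2 := by ring
  have he2 : e ≤ 1 / 5000 := by linarith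
  have he3 : 0 < e ^ 3 := by positivity
  have he3' : e ^ 3 ≤ 1 / 1000 := by
    calc e ^ 3 ≤ (1 / 5000) ^ 3 := pow_le_pow_left₀ he.le he2 3
      _ ≤ 1 / 1000 := by norm_num
  have hσ2 : σ ^ 2 ≤ 1 / 100 := by
    calc σ ^ 2 ≤ (1 / 10) ^ 2 := pow_le_pow_left₀ hσ.le hσ1 2
      _ = 1 / 100 := by norm_num
  have hd1 : d ≤ σ := by
    refine hd.trans ?_
    have h1 : e * s ^ 2 ≤ 1 * σ := by
      have : s ^ 2 ≤ σ := by nlinarith
      exact mul_le_mul (by linarith) this (by positivity) (by norm_num)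
    linarith
  have hd2 : d ≤ 1 / 2 := by linarith
  have hb0 : 0 < b := by linarith
  have hθ0 : 0 < θ := by linarith
  have hg0 : 0 < g := by rw [hg]; positivity
  have hge : e / 2 ≤ g := by
    rw [hg, le_div_iff₀ (by positivity)]
    nlinarith
  have hy0 : 0 < y := by rw [hy]; positivity
  -- the maximum
  have hmax : max 0 ((1 + e ^ 3) ^ 2 * (J ^ 6 * P) -
          2 * (J ^ 2 / T) * ((1 - 2 * e ^ 3) * (J ^ 4 * (b2 * (P * T)))) +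
          (J ^ 2 / T) ^ 2 * (J ^ 2 * (P * T ^ 2))) ≤ J ^ 6 * P * (7 * e ^ 3 + 2 * d) := by
    apply max_le (by positivity)
    have e1 : (1 + e ^ 3) ^ 2 * (J ^ 6 * P) -
          2 * (J ^ 2 / T) * ((1 - 2 * e ^ 3) * (J ^ 4 * (b2 * (P * T)))) +
          (J ^ 2 / T) ^ 2 * (J ^ 2 * (P * T ^ 2)) =
        J ^ 6 * P * ((1 + e ^ 3) ^ 2 - 2 * ((1 - 2 * e ^ 3) * b2) + 1) := by
      field_simp
    rw [e1]
    apply mul_le_mul_of_nonneg_left _ (by positivity)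
    have h1 : (1 - 2 * e ^ 3) * (1 - d) ≤ (1 - 2 * e ^ 3) * b2 :=
      mul_le_mul_of_nonneg_left hb2 (by linarith)
    have h2 : (e ^ 3) ^ 2 ≤ e ^ 3 := by nlinarith
    have h3 : 0 ≤ e ^ 3 * d := by positivity
    nlinarith
  have hbe : 4096 / (e * b) ≤ 8192 / e := by
    rw [div_le_div_iff₀ (by positivity) he]
    nlinarith
  -- under the first root
  have hroot : 1024 * ω / (e / 4 * (J ^ 2 * (b * (P * T ^ 2)))) *
      (K * (2 * (g * ((1 + e ^ 3) * (J ^ 4 * (P * T))))) + K ^ 2 * g ^ 2 *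
        max 0 ((1 + e ^ 3) ^ 2 * (J ^ 6 * P) -
          2 * (J ^ 2 / T) * ((1 - 2 * e ^ 3) * (J ^ 4 * (b2 * (P * T)))) +
          (J ^ 2 / T) ^ 2 * (J ^ 2 * (P * T ^ 2)))) ≤ (σ * y) ^ 2 := by
    calc 1024 * ω / (e / 4 * (J ^ 2 * (b * (P * T ^ 2)))) *
      (K * (2 * (g * ((1 + e ^ 3) * (J ^ 4 * (P * T))))) + K ^ 2 * g ^ 2 *
        max 0 ((1 + e ^ 3) ^ 2 * (J ^ 6 * P) -
          2 * (J ^ 2 / T) * ((1 - 2 * e ^ 3) * (J ^ 4 * (b2 * (P * T)))) +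
          (J ^ 2 / T) ^ 2 * (J ^ 2 * (P * T ^ 2)))) ≤
        1024 * ω / (e / 4 * (J ^ 2 * (b * (P * T ^ 2)))) *
      (K * (2 * (g * (2 * (J ^ 4 * (P * T))))) + K ^ 2 * g ^ 2 *
        (J ^ 6 * P * (7 * e ^ 3 + 2 * d))) := by
          gcongr
          linarith
      _ = ω * (4096 / (e * b) * (4 * y + y ^ 2 * (7 * e ^ 3 + 2 * d))) := by
          rw [hy]
          field_simp
          ring
      _ ≤ ω * (8192 / e * (4 * y + y ^ 2 * (7 * e ^ 3 + 2 * d))) := by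
          apply mul_le_mul_of_nonneg_left _ hω0.le
          apply mul_le_mul_of_nonneg_right hbe (by positivity)
      _ ≤ (σ * y) ^ 2 := hsc _ (numA s e d y hs he he1 hd hyl hy0)
  have hsqrt := Real.sqrt_le_sqrt hroot
  rw [Real.sqrt_sq (by positivity)] at hsqrt
  -- under the second root
  have hroot2 : nb ^ 2 * (1024 * ω / (e / 4 * (J ^ 2 * (b * (P * T ^ 2)))) *
      (K * (4 * G ^ 2 * (1 / 4 * ((1 + e ^ 3) * (J ^ 4 * (P * T))))) + K ^ 2 * (1 / 4) ^ 2 *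
        (16 * G ^ 2 * κ * ((1 + e ^ 3) ^ 2 * (J ^ 6 * P))))) ≤ (σ * y) ^ 2 := by
    have hyg : y / g = K * (J ^ 2 / T) := by
      rw [hy]
      field_simp
    have h14 : (1 + e ^ 3) ^ 2 ≤ 4 := by nlinarith
    calc nb ^ 2 * (1024 * ω / (e / 4 * (J ^ 2 * (b * (P * T ^ 2)))) *
      (K * (4 * G ^ 2 * (1 / 4 * ((1 + e ^ 3) * (J ^ 4 * (P * T))))) + K ^ 2 * (1 / 4) ^ 2 *
        (16 * G ^ 2 * κ * ((1 + e ^ 3) ^ 2 * (J ^ 6 * P))))) ≤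
        nb ^ 2 * (1024 * ω / (e / 4 * (J ^ 2 * (b * (P * T ^ 2)))) *
      (K * (4 * G ^ 2 * (1 / 4 * (2 * (J ^ 4 * (P * T))))) + K ^ 2 * (1 / 4) ^ 2 *
        (16 * G ^ 2 * κ * (4 * (J ^ 6 * P))))) := by
          gcongr
          linarith
      _ = ω * (nb ^ 2 * (4096 / (e * b) * (2 * G ^ 2 * (y / g) + 4 * G ^ 2 * κ * (y / g) ^ 2))) := by
          rw [hyg]
          field_simp
          ring
      _ ≤ ω * (nb ^ 2 * (8192 / e * (2 * G ^ 2 * (y / g) + 4 * G ^ 2 * κ * (y / g) ^ 2))) := by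
          apply mul_le_mul_of_nonneg_left _ hω0.le
          apply mul_le_mul_of_nonneg_left _ (by positivity)
          exact mul_le_mul_of_nonneg_right hbe (by positivity)
      _ ≤ (σ * y) ^ 2 := hsc _ (numB s e G κ nb g y hs he hκ hGκ hge hyl2 hy0)
  have hsqrt2 := Real.sqrt_le_sqrt hroot2
  rw [Real.sqrt_sq (by positivity), Real.sqrt_mul (sq_nonneg _), Real.sqrt_sq hnb] at hsqrt2
  -- the last comparison
  have hy3 : 1 ≤ σ * y := by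
    rw [div_le_iff₀ hσ] at hyl3
    linarith
  have hgt : K * (e / 4) * (J ^ 2 / T) = θ / 2 * y := by
    rw [hy, hg]
    field_simp
  have hkey : (1 + (y + σ * y + σ * y)) * m < n * (θ / 2 * y * b) := by
    have h1 : 1 + (y + σ * y + σ * y) ≤ y * (1 + 3 * σ) := by linarith
    have h2 : y * (1 + 3 * σ) * m < y * (θ / 2) * (n * (1 - σ)) := by
      have h3 : y * (1 + 3 * σ) * m = y * (θ / 2) * (2 / θ * m * (1 + 3 * σ)) := by
        field_simp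
      rw [h3]
      exact mul_lt_mul_of_pos_left hnm (by positivity)
    have h4 : y * (θ / 2) * (n * (1 - σ)) ≤ y * (θ / 2) * (n * b) := by
      apply mul_le_mul_of_nonneg_left _ (by positivity)
      exact mul_le_mul_of_nonneg_left (by linarith) hn.le
    calc (1 + (y + σ * y + σ * y)) * m ≤ y * (1 + 3 * σ) * m := mul_le_mul_of_nonneg_right h1 hm
      _ < y * (θ / 2) * (n * (1 - σ)) := h2
      _ ≤ y * (θ / 2) * (n * b) := h4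
      _ = _ := by ring
  have hfac : 0 < P * T ^ 3 := by positivity
  calc _ ≤ (1 + (y + σ * y + σ * y)) * (m * (P * T ^ 3)) := by
        apply mul_le_mul_of_nonneg_right _ (by positivity)
        rw [← hy]
        linarith
    _ = ((1 + (y + σ * y + σ * y)) * m) * (P * T ^ 3) := by ring
    _ < (n * (θ / 2 * y * b)) * (P * T ^ 3) := mul_lt_mul_of_pos_right hkey hfac
    _ = n * (K * (e / 4 * (J ^ 2 * (b * (P * T ^ 2))))) := by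
        rw [← hgt]
        field_simp

/-- the strict inequality at `ε = 0` -/
theorem baseLW (n m nb : ℕ) (θ σ s₀ ω ε₁ G κ : ℝ) (hω : 1 ≤ ω) (hs₀ : 0 < s₀) (hsω : s₀ * ω ≤ σ)
    (hn : 1 ≤ n)
    (hθ : 1 / 2 ≤ θ) (hθ1 : θ ≤ 1) (hσ : 0 < σ) (hσ1 : σ ≤ 1 / 10)
    (hnm : 2 / θ * (m : ℝ) * (1 + 3 * σ) < n * (1 - σ)) (he : 0 < ε₁)
    (he1 : ε₁ ≤ s₀ / 500) (hG : 0 ≤ G) (hκ : 0 ≤ κ)
    (hGκ : 1000000 * (G ^ 2 * κ * (nb : ℝ) ^ 2) ≤ s₀ ^ 2 * ε₁ ^ 3) :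
    ∃ (K : ℕ) (Q : SPar), 2 ≤ K ∧ 3 ≤ n * K ∧ 0 < Q.I1 ∧
    0 < Q.I2 ∧ 0 < Br Q (n * K) 0 ∧ 0 < Br2 Q (n * K) 0 ∧
    (1 + muLW ω Q n K nb (g0c (4 * θ - 2) (ε₁ / 4) 0) ε₁ (ε₁ / 4) G κ 0) *
      ((m + 2 * 0) * Ac Q (n * K) 0) < n * (K * (ε₁ / 4 * βc Q (n * K) 0)) := by
  have hθ0 : 0 < θ := by linarith
  have hsσ : s₀ ≤ σ := by nlinarith
  have hn1 : (1 : ℝ) ≤ n := by exact_mod_cast hn
  have hn0 : (0 : ℝ) < n := by linarith
  set s : ℝ := 2 + 100000 / (ε₁ * s₀ ^ 2) with hs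
  set Y : ℝ := 200000 / (ε₁ * s₀ ^ 2) + 100000 * (G ^ 2 * (nb : ℝ) ^ 2) / (ε₁ ^ 2 * s₀ ^ 2) + 1 / σ
    with hY
  set A : ℝ := 2 * s + 4 + 2 * n * Y / ε₁ with hA
  have hs0 : 0 < 100000 / (ε₁ * s₀ ^ 2) := by positivity
  have hY1 : 200000 / (ε₁ * s₀ ^ 2) ≤ Y := by
    rw [hY]
    have h1 : 0 ≤ 100000 * (G ^ 2 * (nb : ℝ) ^ 2) / (ε₁ ^ 2 * s₀ ^ 2) := by positivity
    have h2 : 0 ≤ 1 / σ := by positivity
    linarith
  have hY2 : 100000 * (G ^ 2 * (nb : ℝ) ^ 2) / (ε₁ ^ 2 * s₀ ^ 2) ≤ Y := by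
    rw [hY]
    have h1 : 0 ≤ 200000 / (ε₁ * s₀ ^ 2) := by positivity
    have h2 : 0 ≤ 1 / σ := by positivity
    linarith
  have hY3 : 1 / σ ≤ Y := by
    rw [hY]
    have h1 : 0 ≤ 200000 / (ε₁ * s₀ ^ 2) := by positivity
    have h2 : 0 ≤ 100000 * (G ^ 2 * (nb : ℝ) ^ 2) / (ε₁ ^ 2 * s₀ ^ 2) := by positivity
    linarith
  have hY0 : 0 < Y := lt_of_lt_of_le (by positivity) hY3
  have hA0 : 0 < 2 * n * Y / ε₁ := by positivity
  have hs1 : 1 ≤ s := by rw [hs]; linarith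
  have hAs : 2 * s + 4 ≤ A := by rw [hA]; linarith
  have hA4 : 4 ≤ A := by linarith
  obtain ⟨K', hK'⟩ := exists_nat_ge (100 * s ^ 2 * Real.exp A)
  set K : ℕ := K' + 3 with hK
  have hKR : 100 * s ^ 2 * Real.exp A ≤ (K : ℝ) := by
    rw [hK]; push_cast; linarith
  have hK2 : 2 ≤ K := by omega
  have hK2R : (2 : ℝ) ≤ K := by exact_mod_cast hK2
  have hnK : K ≤ n * K := Nat.le_mul_of_pos_left K hn
  have hnK3 : 3 ≤ n * K := by omega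
  have hkK : (K : ℝ) ≤ ((n * K : ℕ) : ℝ) := by exact_mod_cast hnK
  obtain ⟨Q, hQG, hQc, hQl⟩ := exists_parS A s hA4 hs1 (n * K) (hKR.trans hkK)
  obtain ⟨hI1, hI2, hI2le, hBl, hBu⟩ := Br_zero_bounds A s hs1 hAs (n * K) (hKR.trans hkK) Q
    hQG hQc hQl
  have hBl2 := Br2_zero_bounds A s hs1 hAs (n * K) (hKR.trans hkK) Q hQG hQc hQl
  set d : ℝ := Real.exp (-s + 2) with hd
  have hd0 : 0 < d := Real.exp_pos _
  have hd1 : d ≤ ε₁ * s₀ ^ 2 / 100000 := by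
    have h1 : d = (Real.exp (100000 / (ε₁ * s₀ ^ 2)))⁻¹ := by
      rw [hd, ← Real.exp_neg]
      congr 1
      rw [hs]; ring
    have h2 : 100000 / (ε₁ * s₀ ^ 2) ≤ Real.exp (100000 / (ε₁ * s₀ ^ 2)) := by
      have := Real.add_one_le_exp (100000 / (ε₁ * s₀ ^ 2))
      linarith
    rw [h1]
    calc (Real.exp (100000 / (ε₁ * s₀ ^ 2)))⁻¹ ≤ (100000 / (ε₁ * s₀ ^ 2))⁻¹ :=
          inv_anti₀ hs0 h2
      _ = ε₁ * s₀ ^ 2 / 100000 := by rw [inv_div]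
  have hd2 : d ≤ 1 / 2 := by
    have h1 : ε₁ * s₀ ^ 2 ≤ 1 * 1 := by
      apply mul_le_mul (by linarith) _ (by positivity) (by norm_num)
      nlinarith
    linarith
  set k : ℕ := n * K with hk
  have hkcast : (k : ℝ) = n * K := by rw [hk]; push_cast; ring
  have hk3 : 3 ≤ k := hnK3
  have hK0 : (0 : ℝ) < K := by linarith
  have hk0 : (0 : ℝ) < k := by rw [hkcast]; positivity
  set T : ℝ := Q.I2 with hT
  set P : ℝ := (1 / 3) * T ^ (k - 3) with hP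
  have hP0 : 0 < P := by positivity
  have hpow1 : (1 / 3) * T ^ (k - 2) = P * T := by
    have : k - 2 = (k - 3) + 1 := by omega
    rw [this, pow_succ, hP]; ring
  have hpow2 : (1 / 3) * T ^ (k - 1) = P * T ^ 2 := by
    have : k - 1 = (k - 3) + 2 := by omega
    rw [hP, mul_assoc, ← pow_add, ← this]
  have hpow3 : (1 / 3) * T ^ k = P * T ^ 3 := by
    have : k = (k - 3) + 3 := by omega
    rw [hP, mul_assoc, ← pow_add, ← this]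
  have hPT : 0 < P * T := by positivity
  have hPT2 : 0 < P * T ^ 2 := by positivity
  rw [hpow1] at hBl2
  rw [hpow2] at hBl hBu
  set b : ℝ := Br Q k 0 / (P * T ^ 2) with hb
  set b2 : ℝ := Br2 Q k 0 / (P * T) with hb2
  have hBb : Br Q k 0 = b * (P * T ^ 2) := by
    rw [hb]; field_simp
  have hBb2 : Br2 Q k 0 = b2 * (P * T) := by
    rw [hb2]; field_simp
  have hb1 : 1 - d ≤ b := by
    rw [hb, le_div_iff₀ hPT2]; exact hBl
  have hb1' : b ≤ 1 := by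
    rw [hb, div_le_one hPT2]; exact hBu
  have hb21 : 1 - d ≤ b2 := by
    rw [hb2, le_div_iff₀ hPT]; exact hBl2
  have hJ : 0 < Q.I1 := by rw [hI1]; positivity
  have hBpos : 0 < Br Q k 0 := by
    rw [hBb]
    have : 0 < b := by linarith
    positivity
  have hB2pos : 0 < Br2 Q k 0 := by
    rw [hBb2]
    have : 0 < b2 := by linarith
    positivity
  set g : ℝ := ε₁ / 4 / (θ / 2) with hg
  have hg0 : 0 < g := by rw [hg]; positivity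
  have hyl : Y ≤ K * g * (Q.I1 ^ 2 / T) := by
    have h1 : A / k ≤ Q.I1 ^ 2 / T := by
      rw [le_div_iff₀ hI2, hI1]
      calc A / k * T ≤ A / k * (1 / (A * k)) := by
            apply mul_le_mul_of_nonneg_left hI2le
            have : 0 < A := by linarith
            positivity
        _ = (1 / (k : ℝ)) ^ 2 := by
            have : A ≠ 0 := by
              have : 0 < A := by linarith
              exact this.ne'
            field_simp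
    have h2 : ε₁ / 2 ≤ g := by
      rw [hg, le_div_iff₀ (by positivity)]
      nlinarith
    have h3 : 2 * n * Y / ε₁ ≤ A := by
      rw [hA]; linarith
    calc Y = (ε₁ / 2) * (1 / n) * (2 * n * Y / ε₁) := by
          field_simp
      _ ≤ (ε₁ / 2) * (1 / n) * A := by
          apply mul_le_mul_of_nonneg_left h3 (by positivity)
      _ = K * (ε₁ / 2) * (A / k) := by
          rw [hkcast]; field_simp
      _ ≤ K * g * (Q.I1 ^ 2 / T) := by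
          have hA1 : 0 < A := by linarith
          apply mul_le_mul _ h1 (by positivity) (by positivity)
          apply mul_le_mul_of_nonneg_left h2 hK0.le
  have hcore := coreLW n m θ σ s₀ ω ε₁ G κ nb K Q.I1 T P b b2 d g (K * g * (Q.I1 ^ 2 / T))
    hω hs₀ hsω (Nat.cast_nonneg m) hn0 hθ hθ1 hσ hσ1 hnm he he1 hκ (Nat.cast_nonneg nb) hGκ hK0
    hJ hI2 hP0 hd0.le hd1 hb1 hb1' hb21 hg rfl (hY1.trans hyl) (hY2.trans hyl) (hY3.trans hyl)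
  refine ⟨K, Q, hK2, hnK3, hJ, hI2, hBpos, hB2pos, ?_⟩
  have eA : Ac Q k 0 = P * T ^ 3 := by
    unfold Ac
    rw [← hpow3]; simp [hT]
  have eβ : βc Q k 0 = Q.I1 ^ 2 * (b * (P * T ^ 2)) := by
    unfold βc
    rw [hBb]; simp
  have eg : g0c (4 * θ - 2) (ε₁ / 4) 0 = g := by
    unfold g0c
    rw [hg]
    have : (1 : ℝ) / 4 + (4 * θ - 2) / 8 = θ / 2 := by ring
    rw [this, sub_zero, mul_one]
  have er : r0c Q k 0 = Q.I1 ^ 2 * (P * T ^ 2) := by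
    unfold r0c
    rw [← hpow2]
    simp only [add_zero, sub_zero, one_pow, div_one, one_mul, mul_one, ← hT]
    ring
  have el : l1c Q k ε₁ 0 = (1 - 2 * ε₁ ^ 3) * (Q.I1 ^ 4 * (b2 * (P * T))) := by
    unfold l1c
    rw [hBb2]; simp
  have eu : u2c Q k ε₁ 0 = (1 + ε₁ ^ 3) ^ 2 * (Q.I1 ^ 6 * P) := by
    unfold u2c
    rw [hP]
    simp only [add_zero, sub_zero, one_pow, div_one, one_mul, mul_one, ← hT]
    ring
  have ed : udc Q k ε₁ 0 = (1 + ε₁ ^ 3) * (Q.I1 ^ 4 * (P * T)) := by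
    unfold udc
    rw [← hpow1]
    simp only [add_zero, sub_zero, one_pow, div_one, one_mul, mul_one, ← hT]
    ring
  have e4 : ε₁ / 4 / ε₁ = 1 / 4 := by field_simp
  have eo : ofc Q k G κ ε₁ 0 = 16 * G ^ 2 * κ * ((1 + ε₁ ^ 3) ^ 2 * (Q.I1 ^ 6 * P)) := by
    unfold ofc
    rw [eu, mul_zero, add_zero]
  have emu : muLW ω Q n K nb (g0c (4 * θ - 2) (ε₁ / 4) 0) ε₁ (ε₁ / 4) G κ 0 =
      K * g * (Q.I1 ^ 2 / T) + Real.sqrt (1024 * ω / (ε₁ / 4 * (Q.I1 ^ 2 * (b * (P * T ^ 2)))) *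
      (K * (2 * (g * ((1 + ε₁ ^ 3) * (Q.I1 ^ 4 * (P * T))))) + (K : ℝ) ^ 2 * g ^ 2 *
        max 0 ((1 + ε₁ ^ 3) ^ 2 * (Q.I1 ^ 6 * P) -
          2 * (Q.I1 ^ 2 / T) * ((1 - 2 * ε₁ ^ 3) * (Q.I1 ^ 4 * (b2 * (P * T)))) +
          (Q.I1 ^ 2 / T) ^ 2 * (Q.I1 ^ 2 * (P * T ^ 2))))) +
      nb * Real.sqrt (1024 * ω / (ε₁ / 4 * (Q.I1 ^ 2 * (b * (P * T ^ 2)))) *
      (K * (4 * G ^ 2 * (1 / 4 * ((1 + ε₁ ^ 3) * (Q.I1 ^ 4 * (P * T))))) +
        (K : ℝ) ^ 2 * (1 / 4) ^ 2 *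
        (16 * G ^ 2 * κ * ((1 + ε₁ ^ 3) ^ 2 * (Q.I1 ^ 6 * P))))) := by
    unfold muLW qc
    rw [← hk, eg, eβ, ed, eu, el, er, eo, e4]
  rw [emu, eA, eβ, mul_zero, add_zero]
  exact hcore

/-- the choice of the parameters -/
theorem numLW (ω κ₀ : ℝ) (hω : 1 ≤ ω) (hκ₀ : 0 < κ₀) (θ : ℝ) (hθ : 1 / 2 ≤ θ) (hθ1 : θ ≤ 1) (n m : ℕ) (hn : 1 ≤ n)
    (hnm0 : 2 / θ * (m : ℝ) < n) (nb : ℕ) (c₁ : ℝ) : ∃ e₁ : ℝ, 0 < e₁ ∧ ∀ ε₁ : ℝ, 0 < ε₁ →
    ε₁ ≤ e₁ → ∃ (K : ℕ) (Q : SPar) (ε : ℝ), 2 ≤ K ∧ 3 ≤ n * K ∧ 0 < ε ∧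
    ε < 1 / 3 ∧ ε < κ₀ ∧ ε < Q.I1 ∧ ε < Q.I2 ∧ 0 < Br Q (n * K) ε ∧ 0 < Br2 Q (n * K) ε ∧
    (1 + muLW ω Q n K nb (g0c (4 * θ - 2) (ε₁ / 4) ε) ε₁ (ε₁ / 4) (Real.exp (c₁ / ε₁))
      (Real.exp (-((2 * c₁ + 1) / ε₁))) ε) * ((m + 2 * ε) * Ac Q (n * K) ε) <
      n * (K * (ε₁ / 4 * βc Q (n * K) ε)) := by
  have hθ0 : 0 < θ := by linarith
  have hn1 : (1 : ℝ) ≤ n := by exact_mod_cast hn
  obtain ⟨gap, hgap⟩ : ∃ gap : ℝ, gap = n - 2 / θ * (m : ℝ) := ⟨_, rfl⟩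
  have hgap0 : 0 < gap := by rw [hgap]; linarith
  have hm0 : 0 ≤ 2 / θ * (m : ℝ) := by positivity
  obtain ⟨σ, hσd⟩ : ∃ σ : ℝ, σ = min (1 / 10) (gap / (2 * (n + 3 * (2 / θ * (m : ℝ))))) := ⟨_, rfl⟩
  have hden : 0 < 2 * (n + 3 * (2 / θ * (m : ℝ))) := by positivity
  have hσ : 0 < σ := by rw [hσd]; exact lt_min (by norm_num) (by positivity)
  have hσ1 : σ ≤ 1 / 10 := by rw [hσd]; exact min_le_left _ _
  have hσ2 : σ * (2 * (n + 3 * (2 / θ * (m : ℝ)))) ≤ gap := by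
    rw [← le_div_iff₀ hden, hσd]
    exact min_le_right _ _
  have hnm : 2 / θ * (m : ℝ) * (1 + 3 * σ) < n * (1 - σ) := by
    have h1 : 0 < σ * (n + 3 * (2 / θ * (m : ℝ))) := by positivity
    nlinarith
  have hω0 : 0 < ω := by linarith
  obtain ⟨s₀, hs₀d⟩ : ∃ s₀ : ℝ, s₀ = σ / ω := ⟨_, rfl⟩
  have hs₀ : 0 < s₀ := by rw [hs₀d]; positivity
  have hsω : s₀ * ω ≤ σ := by
    rw [hs₀d, div_mul_cancel₀ _ hω0.ne']
  refine ⟨min (s₀ / 500) (s₀ ^ 2 / (24000000 * ((nb : ℝ) ^ 2 + 1))), lt_min (by positivity)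
    (by positivity), ?_⟩
  intro ε₁ he he1'
  have he1 : ε₁ ≤ s₀ / 500 := he1'.trans (min_le_left _ _)
  have he2 : ε₁ * (24000000 * ((nb : ℝ) ^ 2 + 1)) ≤ s₀ ^ 2 := by
    rw [← le_div_iff₀ (by positivity)]
    exact he1'.trans (min_le_right _ _)
  have hGκ : 1000000 * (Real.exp (c₁ / ε₁) ^ 2 * Real.exp (-((2 * c₁ + 1) / ε₁)) * (nb : ℝ) ^ 2) ≤
      s₀ ^ 2 * ε₁ ^ 3 := by
    have e1 : Real.exp (c₁ / ε₁) ^ 2 * Real.exp (-((2 * c₁ + 1) / ε₁)) = Real.exp (-(1 / ε₁)) := by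
      rw [pow_two, ← Real.exp_add, ← Real.exp_add]
      congr 1
      ring
    have e2 : Real.exp (-(1 / ε₁)) ≤ 24 * ε₁ ^ 4 := by
      have h1 : (1 / ε₁) ^ 4 / 24 ≤ Real.exp (1 / ε₁) := by
        have h2 := Real.pow_div_factorial_le_exp (1 / ε₁) (by positivity) 4
        have h3 : ((Nat.factorial 4 : ℕ) : ℝ) = 24 := by norm_num [Nat.factorial]
        rw [h3] at h2
        exact h2
      rw [Real.exp_neg]
      have h4 : 0 < (1 / ε₁) ^ 4 / 24 := by positivity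
      calc (Real.exp (1 / ε₁))⁻¹ ≤ ((1 / ε₁) ^ 4 / 24)⁻¹ := inv_anti₀ h4 h1
        _ = 24 * ε₁ ^ 4 := by field_simp
    rw [e1]
    calc 1000000 * (Real.exp (-(1 / ε₁)) * (nb : ℝ) ^ 2) ≤
        1000000 * (24 * ε₁ ^ 4 * ((nb : ℝ) ^ 2 + 1)) := by
          gcongr
          linarith
      _ = (ε₁ * (24000000 * ((nb : ℝ) ^ 2 + 1))) * ε₁ ^ 3 := by ring
      _ ≤ s₀ ^ 2 * ε₁ ^ 3 := mul_le_mul_of_nonneg_right he2 (by positivity)
  obtain ⟨G, hGd⟩ : ∃ G : ℝ, G = Real.exp (c₁ / ε₁) := ⟨_, rfl⟩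
  obtain ⟨κ, hκd⟩ : ∃ κ : ℝ, κ = Real.exp (-((2 * c₁ + 1) / ε₁)) := ⟨_, rfl⟩
  rw [← hGd, ← hκd] at hGκ
  rw [← hGd, ← hκd]
  have hG0 : 0 ≤ G := by rw [hGd]; positivity
  have hκ0 : 0 ≤ κ := by rw [hκd]; positivity
  obtain ⟨K, Q, hK, hnK3, hI1, hI2, hB, hB2, hb⟩ :=
    baseLW n m nb θ σ s₀ ω ε₁ G κ hω hs₀ hsω hn hθ hθ1 hσ hσ1 hnm he he1 hG0 hκ0 hGκ
  have hcB : Continuous fun ε : ℝ => Br Q (n * K) ε := by
    unfold Br
    fun_prop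
  have hcB2 : Continuous fun ε : ℝ => Br2 Q (n * K) ε := by
    unfold Br2
    fun_prop
  have hcβ : Continuous fun ε : ℝ => βc Q (n * K) ε := by
    unfold βc
    fun_prop
  have hcA : Continuous fun ε : ℝ => Ac Q (n * K) ε := by
    unfold Ac
    fun_prop
  have hβ0 : βc Q (n * K) 0 ≠ 0 := by
    have : βc Q (n * K) 0 = Q.I1 ^ 2 * Br Q (n * K) 0 := by
      unfold βc
      simp
    rw [this]
    positivity
  have hg : ContinuousAt (fun ε : ℝ => g0c (4 * θ - 2) (ε₁ / 4) ε) 0 := by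
    unfold g0c
    apply ContinuousAt.div (by fun_prop) (by fun_prop)
    have : (0 : ℝ) < (1 / 4 + (4 * θ - 2) / 8) * (1 - 0) := by
      rw [sub_zero]; linarith
    exact this.ne'
  have hdv : ∀ n : ℕ, ContinuousAt (fun ε : ℝ => (Q.I1 + ε) ^ n / (1 - ε) ^ 2) 0 := by
    intro n
    apply ContinuousAt.div (by fun_prop) (by fun_prop)
    norm_num
  have hr : ContinuousAt (fun ε : ℝ => r0c Q (n * K) ε) 0 := by
    unfold r0c
    have h1 := hdv 2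
    have h2 : ContinuousAt (fun ε : ℝ => (1 + ε)) 0 := by fun_prop
    have h3 : ContinuousAt (fun ε : ℝ => (1 / 3 + ε)) 0 := by fun_prop
    have h4 : ContinuousAt (fun ε : ℝ => (Q.I2 + ε) ^ (n * K - 1)) 0 := by fun_prop
    exact (h2.mul (((h1.mul h2).mul h3).mul h4)).add continuousAt_id
  have hu : ContinuousAt (fun ε : ℝ => u2c Q (n * K) ε₁ ε) 0 := by
    unfold u2c
    have h1 := hdv 6
    have h2 : ContinuousAt (fun ε : ℝ => (1 + ε)) 0 := by fun_prop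
    have h3 : ContinuousAt (fun ε : ℝ => (1 / 3 + ε)) 0 := by fun_prop
    have h4 : ContinuousAt (fun ε : ℝ => (Q.I2 + ε) ^ (n * K - 3)) 0 := by fun_prop
    exact ((h2.mul continuousAt_const).mul (((h1.mul h2).mul h3).mul h4)).add continuousAt_id
  have hud : ContinuousAt (fun ε : ℝ => udc Q (n * K) ε₁ ε) 0 := by
    unfold udc
    have h1 := hdv 4
    have h2 : ContinuousAt (fun ε : ℝ => (1 + ε)) 0 := by fun_prop
    have h3 : ContinuousAt (fun ε : ℝ => (1 / 3 + ε)) 0 := by fun_prop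
    have h4 : ContinuousAt (fun ε : ℝ => (Q.I2 + ε) ^ (n * K - 2)) 0 := by fun_prop
    exact ((h2.mul continuousAt_const).mul (((h1.mul h2).mul h3).mul h4)).add continuousAt_id
  have hl : ContinuousAt (fun ε : ℝ => l1c Q (n * K) ε₁ ε) 0 := by
    unfold l1c
    have h1 : ContinuousAt (fun ε : ℝ => (1 - ε) ^ 4 * (Q.I1 - ε) ^ 4 / (1 + ε) ^ 2) 0 := by
      apply ContinuousAt.div (by fun_prop) (by fun_prop)
      norm_num
    have h2 : ContinuousAt (fun ε : ℝ => (1 - ε)) 0 := by fun_prop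
    have h3 : ContinuousAt (fun ε : ℝ => 2 * ε) 0 := by fun_prop
    exact ((h2.mul continuousAt_const).mul ((h1.mul h2).mul hcB2.continuousAt)).sub h3
  have hq : ContinuousAt (fun ε : ℝ => qc Q (n * K) ε₁ ε) 0 := by
    unfold qc
    have h1 : ContinuousAt (fun ε : ℝ => u2c Q (n * K) ε₁ ε -
        2 * (Q.I1 ^ 2 / Q.I2) * l1c Q (n * K) ε₁ ε +
        (Q.I1 ^ 2 / Q.I2) ^ 2 * r0c Q (n * K) ε) 0 :=
      (hu.sub (continuousAt_const.mul hl)).add (continuousAt_const.mul hr)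
    exact Filter.Tendsto.max tendsto_const_nhds h1.tendsto
  have ho : ContinuousAt (fun ε : ℝ => ofc Q (n * K) G κ ε₁ ε) 0 := by
    unfold ofc
    exact (continuousAt_const.mul hu).add (continuousAt_const.mul continuousAt_id)
  have hmu : ContinuousAt (fun ε : ℝ => muLW ω Q n K nb (g0c (4 * θ - 2) (ε₁ / 4) ε) ε₁ (ε₁ / 4) G κ
      ε) 0 := by
    unfold muLW
    have h1 : ContinuousAt (fun ε : ℝ => 1024 * ω / (ε₁ / 4 * βc Q (n * K) ε)) 0 := by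
      apply ContinuousAt.div continuousAt_const (continuousAt_const.mul hcβ.continuousAt)
      have : ε₁ / 4 ≠ 0 := by positivity
      exact mul_ne_zero this hβ0
    have h2 : ContinuousAt (fun ε : ℝ => (K : ℝ) * (2 * (g0c (4 * θ - 2) (ε₁ / 4) ε *
        udc Q (n * K) ε₁ ε)) + (K : ℝ) ^ 2 * g0c (4 * θ - 2) (ε₁ / 4) ε ^ 2 *
        qc Q (n * K) ε₁ ε) 0 :=
      (continuousAt_const.mul (continuousAt_const.mul (hg.mul hud))).add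
        ((continuousAt_const.mul (hg.pow 2)).mul hq)
    have h3 : ContinuousAt (fun ε : ℝ => (K : ℝ) * (4 * G ^ 2 * (ε₁ / 4 / ε₁ *
        udc Q (n * K) ε₁ ε)) + (K : ℝ) ^ 2 * (ε₁ / 4 / ε₁) ^ 2 * ofc Q (n * K) G κ ε₁ ε) 0 :=
      (continuousAt_const.mul (continuousAt_const.mul (continuousAt_const.mul hud))).add
        (continuousAt_const.mul ho)
    exact (((continuousAt_const.mul hg).mul continuousAt_const).add (h1.mul h2).sqrt).add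
      (continuousAt_const.mul (h1.mul h3).sqrt)
  have hc1 : ContinuousAt (fun ε : ℝ => (1 + muLW ω Q n K nb (g0c (4 * θ - 2) (ε₁ / 4) ε) ε₁ (ε₁ / 4)
      G κ ε) * ((m + 2 * ε) * Ac Q (n * K) ε)) 0 := by
    apply ContinuousAt.mul (continuousAt_const.add hmu)
    apply ContinuousAt.mul (by fun_prop) hcA.continuousAt
  have hc2 : ContinuousAt (fun ε : ℝ => n * (K * (ε₁ / 4 * βc Q (n * K) ε))) 0 :=
    continuousAt_const.mul (continuousAt_const.mul (continuousAt_const.mul hcβ.continuousAt))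
  have hev : ∀ᶠ ε : ℝ in 𝓝 0, (1 + muLW ω Q n K nb (g0c (4 * θ - 2) (ε₁ / 4) ε) ε₁ (ε₁ / 4) G κ ε) *
      ((m + 2 * ε) * Ac Q (n * K) ε) < n * (K * (ε₁ / 4 * βc Q (n * K) ε)) :=
    hc1.tendsto.eventually_lt hc2.tendsto hb
  have hev1 : ∀ᶠ ε : ℝ in 𝓝 0, ε < 1 / 3 := gt_mem_nhds (by norm_num)
  have hev0 : ∀ᶠ ε : ℝ in 𝓝 0, ε < κ₀ := gt_mem_nhds hκ₀
  have hev2 : ∀ᶠ ε : ℝ in 𝓝 0, ε < Q.I1 := gt_mem_nhds hI1
  have hev3 : ∀ᶠ ε : ℝ in 𝓝 0, ε < Q.I2 := gt_mem_nhds hI2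
  have hev4 : ∀ᶠ ε : ℝ in 𝓝 0, 0 < Br Q (n * K) ε :=
    (hcB.tendsto (0 : ℝ)).eventually (lt_mem_nhds hB)
  have hev5 : ∀ᶠ ε : ℝ in 𝓝 0, 0 < Br2 Q (n * K) ε :=
    (hcB2.tendsto (0 : ℝ)).eventually (lt_mem_nhds hB2)
  have hall := ((hev.and (hev1.and (hev0.and (hev2.and (hev3.and (hev4.and hev5)))))).filter_mono
    (nhdsWithin_le_nhds (s := Set.Ioi (0 : ℝ)))).and (self_mem_nhdsWithin (s := Set.Ioi (0 : ℝ)))
  obtain ⟨ε, ⟨h1, h2, h0, h3, h4, h5, h6⟩, h7⟩ := hall.exists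
  exact ⟨K, Q, ε, hK, hnK3, h7, h2, h0, h3, h4, h5, h6, h1⟩

end Pool.Agent.J4.H49.LW
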