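import Mathlib
import Pool.Agent.J4.H49.LW.AsmW
import Pool.Agent.Y827.GS.Final

/-! The coloured theorem with the constant `18 / 5` for arbitrary linear forms in a narrow window,
unconditionally. -/

set_option autoImplicit false

namespace Pool.Agent.J4.H49.LW

open Pool.Agent.W25.UN Pool.Agent.W25.UB
open Pool.Agent.H442R2
open Pool.Agent.TH899.UG
open Pool.Agent.Y827.LS Pool.Agent.Y827.GS

/-- the uniform coloured theorem with the constant `18 / 5`, arbitrary slopes, in a narrow window -/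
theorem thmGW : ThmLW (fun _ => True) :=
  thmLW_of (r2bg (r2tr ttc)) hR2LF hEXM Pool.Agent.W505.UBGAU.main hFT3
    (Pool.Agent.W308.UB.main hEXM) (flc3 Pool.Agent.W308.PL.FLW Pool.Agent.W655.PL.VLB)
    hSUM hMASH (Pool.Agent.W940.UBNWL.main Pool.Agent.W21.UN.main)
    Pool.Agent.W398.UNFO.sd hTWaH hTWbH
    (u0F hNWU) (l1F hNWU Pool.Agent.W469.UBNWE.main)
    (u2F hNWU Pool.Agent.W469.UBNWE.main)
    (udF hNWU Pool.Agent.W469.UBNWE.main) hNWU Pool.Agent.W469.UBNWE.main hVLNF

end Pool.Agent.J4.H49.LW
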